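import Pool.Agent.Helper15.RK.GoalsF

/-! Packet RK-A FRC: the leaf metric is Kähler. -/

open Complex Metric Set Filter Topology MeasureTheory
open scoped ContDiff ComplexConjugate ComplexOrder Manifold Matrix

set_option autoImplicit false

namespace Pool.Agent.Helper49.RK

open Pool.Agent.Helper95.Lin Pool.Agent.Helper16.Abund Pool.Agent.Helper92.Orb
  Pool.Agent.Helper10.SP Pool.Agent.Helper95.RK Pool.Agent.Helper15.RK

universe u v

/-- the density in a frame -/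
theorem frc_aux (hKFB : S_KFB) (hTORF : S_TORF) {b k : ℕ} {T : Set (Cn (b + k))} {G : Type u}
    [Group G] {R : G → Cn (b + k) → Cn (b + k) → Prop}
    {H : Cn (b + k) → Matrix (Fin (b + k)) (Fin (b + k)) ℂ} {Φ : Cn (b + k) → ℝ}
    {g : Cn (b + k) → Matrix (Fin (b + k)) (Fin (b + k)) ℂ} (hF : FrT T R H Φ g)
    (hFl : Flt Φ g T) {W : Set (Cn (b + k))} {L : Cn (b + k) →ₗ[ℂ] Cn k}
    {w : Fin b → Cn (b + k)} {v : Fin k → Cn (b + k) → Cn (b + k)} (hv : KFr Φ W L w v)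
    (hWT : W ⊆ T) {x : Cn (b + k)} (hx : x ∈ W) :
    0 < dens Φ H w v x ∧ (gram H v x).PosDef ∧ (gram g v x).PosDef ∧
    (∑ α, ∑ β, ∑ γ, ∑ δ, (gram H v x)⁻¹ β α * (gram H v x)⁻¹ δ γ *
      (Dvb (v β) (fun y => TRN g v y α γ δ) x -
        Dvb (v δ) (fun y => TRN g v y α γ β) x)) =
    ∑ α, ∑ β, ∑ γ, ∑ δ, (gram H v x)⁻¹ β α * (gram H v x)⁻¹ δ γ *
      ∑ p, ∑ q, TRN g v x α γ q * (gram g v x)⁻¹ q p * conj (TRN g v x β δ p) := by
  obtain ⟨h1, -, h3, -, -, h6⟩ := hKFB hv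
  obtain ⟨-, h7⟩ := h6 H (fun i j => (hF.ket.smooth i j).mono hWT)
  obtain ⟨-, h8⟩ := h6 g (fun i j => (hF.smg i j).mono hWT)
  obtain ⟨h9, -, h10⟩ := h7 (fun y hy => hF.ket.posDef y (hWT hy)) x hx
  obtain ⟨h11, -, -⟩ := h8 (fun y hy => hF.posg y (hWT hy)) x hx
  refine ⟨?_, h9, h11, ?_⟩
  · unfold dens
    have h12 : 0 < ‖(PM w fun α => v α x).det‖ := norm_pos_iff.2 (h3 x hx)
    exact div_pos (mul_pos (h1 x hx).2 h10) (by positivity)
  · refine Finset.sum_congr rfl fun α _ => Finset.sum_congr rfl fun β _ =>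
      Finset.sum_congr rfl fun γ _ => Finset.sum_congr rfl fun δ _ => ?_
    rw [hTORF hv g (fun i j => (hF.smg i j).mono hWT) (fun y hy => hF.posg y (hWT hy)) x hx
      (hFl W L w v hv hWT x hx).2 α β γ δ]

theorem frc (hKFE : S_KFE) (hKFB : S_KFB) (hTAUP : S_TAUP) (hTORF : S_TORF) (hPUE : S_PUE.{u})
    (hST2 : S_ST2.{u}) (hPOSK : S_POSK.{u}) : S_FRC.{u} := by
  intro b k T G _ R H Φ g hF hFl W L w v hv hWT x hx
  obtain ⟨κ, hκ⟩ := hPUE T R hF.ket.et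
  obtain ⟨F, hDz, hFx⟩ := hST2 hF κ hκ
  have hF0 : ∀ y ∈ T, 0 ≤ F y := by
    intro y hy
    obtain ⟨W', L', w', v', hW', hyW', hv'⟩ := hKFE T hF.ket.et.isOpen Φ hF.smP hF.rank y hy
    obtain ⟨h1, h2, h3, h4⟩ := frc_aux hKFB hTORF hF hFl hv' hW' hyW'
    rw [hFx W' L' w' v' hv' hW' y hyW', h4]
    have h5 := (hTAUP (gram H v' y) (gram g v' y) (TRN g v' y) h2 h3).1
    exact div_nonneg (mul_nonneg h1.le h5) (by norm_num)
  have h0 := hPOSK hF.ket.et κ hκ F hDz hF0 x (hWT hx)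
  obtain ⟨h1, h2, h3, h4⟩ := frc_aux hKFB hTORF hF hFl hv hWT hx
  rw [hFx W L w v hv hWT x hx, h4] at h0
  refine (hTAUP (gram H v x) (gram g v x) (TRN g v x) h2 h3).2 ?_
  have h5 := h1.ne'
  have h6 := div_eq_zero_iff.1 h0
  rcases h6 with h6 | h6
  · exact (mul_eq_zero.1 h6).resolve_left h5
  · norm_num at h6

end Pool.Agent.Helper49.RK
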