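import Pool.Agent.Helper45.RK.GoalsG
import Pool.Agent.Helper79.SP.LMUL
import Pool.Agent.Helper74.SP.COMM

/-! # Packet RK COMMK: commutators of elements near the identity, corank `k` -/

open Complex Metric Set Filter Topology
open scoped ContDiff ComplexConjugate Matrix

set_option autoImplicit false

namespace Pool.Agent.Helper49.RK

open Pool.Agent.Helper95.Lin Pool.Agent.Helper10.SP Pool.Agent.Helper95.RK Pool.Agent.Helper45.SP
  Pool.Agent.Helper45.RK Pool.Agent.Helper79.SP Pool.Agent.Helper74.SP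

variable {b k : ℕ} {z₀ : Cn b} {r ρ ρ' d : ℝ} {A : Set (TriK b k)} {t s u : TriK b k}

theorem holK_mem (hA : LGrpK z₀ r A) (ht : t ∈ A) (hρ : ρ ≤ r) : t.HolOn (ball z₀ ρ) := by
  obtain ⟨h1, h2, h3⟩ := hA.holo t ht
  have hs := ball_subset_ball (x := z₀) hρ
  exact ⟨h1.mono hs, fun i j => (h2 i j).mono hs, h3.mono hs⟩

theorem holK_one {U : Set (Cn b)} : (TriK.one : TriK b k).HolOn U :=
  ⟨differentiableOn_id, fun _ _ => differentiableOn_const _, differentiableOn_const _⟩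

theorem diff_mulVec {U : Set (Cn b)} {B : Cn b → Matrix (Fin k) (Fin k) ℂ} {f : Cn b → Cn k}
    (hB : ∀ i j, DifferentiableOn ℂ (fun z => B z i j) U) (hf : DifferentiableOn ℂ f U) :
    DifferentiableOn ℂ (fun z => B z *ᵥ f z) U := by
  rw [differentiableOn_pi]
  intro i
  have h1 : (fun z => (B z *ᵥ f z) i) = fun z => ∑ j, B z i j * f z j := by
    funext z
    rfl
  rw [h1]
  refine DifferentiableOn.fun_sum fun j _ => (hB i j).mul ?_
  exact differentiableOn_pi.1 hf j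

theorem holK_comp {U V : Set (Cn b)} (ht : t.HolOn V) (hs : s.HolOn U) (hm : MapsTo s.g U V) :
    (t.comp s).HolOn U := by
  refine ⟨ht.1.comp hs.1 hm, ?_, ?_⟩
  · intro i j
    have h1 : (fun z => (t.comp s).A z i j) = fun z => ∑ l, t.A (s.g z) i l * s.A z l j := by
      funext z
      exact Matrix.mul_apply
    rw [h1]
    exact DifferentiableOn.fun_sum fun l _ => ((ht.2.1 i l).comp hs.1 hm).mul (hs.2.1 l j)
  · exact (diff_mulVec (fun i j => (ht.2.1 i j).comp hs.1 hm) hs.2.2).add (ht.2.2.comp hs.1 hm)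

/-- The identity theorem for the three components. -/
theorem triK_idb (ht : t.HolOn (ball z₀ ρ)) (hs : s.HolOn (ball z₀ ρ)) (hd : 0 < d)
    (h : t.EqOn s (ball z₀ d)) : t.EqOn s (ball z₀ ρ) := by
  intro z hz
  have hρ : 0 < ρ := pos_of_mem_ball hz
  have hz₀ : z₀ ∈ ball z₀ ρ := mem_ball_self hρ
  have hev : ∀ᶠ z in 𝓝 z₀, z ∈ ball z₀ d := ball_mem_nhds z₀ hd
  refine ⟨idb ht.1 hs.1 hz₀ (hev.mono fun z hz => (h z hz).1) hz, ?_,
    idb ht.2.2 hs.2.2 hz₀ (hev.mono fun z hz => (h z hz).2.2) hz⟩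
  ext i j
  exact idb (ht.2.1 i j) (hs.2.1 i j) hz₀
    (hev.mono fun z hz => congrFun (congrFun (h z hz).2.1 i) j) hz

/-- Products and inverses on large balls. -/
theorem lmulK (hLCONV : S_LCONV) (hSURJ : S_SURJ) (hA : LGrpK z₀ r A) :
    ∀ ρ < r, ∀ ε > 0, ∃ η > 0, ∀ t ∈ A, Near z₀ (r / 2) t.g η →
    (∀ s ∈ A, Near z₀ (r / 2) s.g η → MapsTo s.g (ball z₀ ρ) (ball z₀ r) ∧
      ∃ u ∈ A, u.EqOn (t.comp s) (ball z₀ ρ)) ∧
    ∃ u ∈ A, (u.comp t).EqOn TriK.one (ball z₀ ρ) ∧ Near z₀ ρ u.g ε := by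
  intro ρ hρ ε hε
  have hr := hA.pos
  obtain ⟨ρ₁, hρ₁, hρ₁r⟩ : ∃ ρ₁, max ρ 0 < ρ₁ ∧ ρ₁ < r := exists_between (max_lt hρ hr)
  have hρρ₁ : ρ < ρ₁ := lt_of_le_of_lt (le_max_left _ _) hρ₁
  have hρ₁0 : 0 < ρ₁ := lt_of_le_of_lt (le_max_right _ _) hρ₁
  obtain ⟨η₁, hη₁, H1⟩ := hSURJ z₀ ρ ρ₁ hρρ₁ ε hε
  obtain ⟨η₂, hη₂, H2'⟩ := hLCONV hA.lgrp z₀ (r / 2) (half_pos hr)
    (ball_subset_ball (by linarith)) ρ₁ hρ₁r (min η₁ (r - ρ₁)) (lt_min hη₁ (by linarith))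
  have H2 : ∀ t ∈ A, Near z₀ (r / 2) t.g η₂ → Near z₀ ρ₁ t.g (min η₁ (r - ρ₁)) :=
    fun t ht => H2' (bs t) ⟨t, ht, rfl⟩
  obtain ⟨η₃, hη₃, H3⟩ := hA.mul
  obtain ⟨η₄, hη₄, H4⟩ := hA.inv
  have hmaps : ∀ s ∈ A, Near z₀ (r / 2) s.g (min η₂ (min η₃ η₄)) →
      MapsTo s.g (ball z₀ ρ₁) (ball z₀ r) := by
    intro s hs hn
    refine near_maps (near_mono (H2 s hs (near_mono hn le_rfl (min_le_left _ _))) le_rfl
      (min_le_right _ _)) ?_
    linarith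
  have hmul : ∀ t ∈ A, ∀ s ∈ A, Near z₀ (r / 2) s.g (min η₂ (min η₃ η₄)) → ∀ u ∈ A,
      IsMulK z₀ u t s → u.EqOn (t.comp s) (ball z₀ ρ₁) := by
    rintro t ht s hs hn u hu ⟨d, hd, h⟩
    exact triK_idb (holK_mem hA hu hρ₁r.le)
      (holK_comp (holK_mem hA ht le_rfl) (holK_mem hA hs hρ₁r.le) (hmaps s hs hn)) hd h
  refine ⟨min η₂ (min η₃ η₄), lt_min hη₂ (lt_min hη₃ hη₄), ?_⟩
  intro t ht htn
  have hsub : ball z₀ ρ ⊆ ball z₀ ρ₁ := ball_subset_ball hρρ₁.le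
  refine ⟨?_, ?_⟩
  · intro s hs hsn
    refine ⟨(hmaps s hs hsn).mono_left hsub, ?_⟩
    obtain ⟨u, hu, d, hd, h⟩ := H3 t ht s hs
      (near_mono htn le_rfl ((min_le_right _ _).trans (min_le_left _ _)))
      (near_mono hsn le_rfl ((min_le_right _ _).trans (min_le_left _ _)))
    exact ⟨u, hu, fun z hz => hmul t ht s hs hsn u hu ⟨d, hd, h⟩ z (hsub hz)⟩
  · obtain ⟨u, hu, d, hd, h⟩ := H4 t ht
      (near_mono htn le_rfl ((min_le_right _ _).trans (min_le_right _ _)))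
    have h1 : (u.comp t).EqOn TriK.one (ball z₀ ρ₁) :=
      triK_idb (holK_comp (holK_mem hA hu le_rfl) (holK_mem hA ht hρ₁r.le) (hmaps t ht htn))
        holK_one hd h
    refine ⟨u, hu, fun z hz => h1 z (hsub hz), ?_⟩
    intro w hw
    obtain ⟨z, hz, hzw, hzn⟩ := (H1 t.g (holK_mem hA ht hρ₁r.le).1
      (near_mono (H2 t ht (near_mono htn le_rfl (min_le_left _ _))) le_rfl
        (min_le_left _ _))).1 w hw
    have e1 : u.g (t.g z) = z := (h1 z hz).1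
    rw [hzw] at e1
    rw [e1]
    exact hzn

theorem MB.neg' {B : Matrix (Fin k) (Fin k) ℂ} {C : ℝ} (h : MB B C) : MB (-B) C := by
  intro v
  rw [Matrix.neg_mulVec, norm_neg]
  exact h v

theorem MB.sub' {B D : Matrix (Fin k) (Fin k) ℂ} {C E : ℝ} (h : MB B C) (h' : MB D E) :
    MB (B - D) (C + E) := by
  rw [sub_eq_add_neg]
  exact MB.add h (MB.neg' h')

theorem MB.nonneg' {B : Matrix (Fin k) (Fin k) ℂ} {C : ℝ} (h : MB B C) (v : Cn k) (hv : 0 < ‖v‖) :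
    0 ≤ C := by
  have h1 := (norm_nonneg _).trans (h v)
  by_contra hC
  rw [not_le] at hC
  nlinarith

/-- The algebra of the commutator. -/
theorem comm_alg {ct S1 T1 T2 S2 : Matrix (Fin k) (Fin k) ℂ} (h : ct * (S1 * T1) = T2 * S2)
    (hS1 : S1.det ≠ 0) (hT1 : T1.det ≠ 0) :
    ct - 1 = ((T2 - T1) * S2 + ((T1 - 1) * (S2 - 1) - (S2 - 1) * (T1 - 1)) -
      (S1 - S2) * T1) * (T1⁻¹ * S1⁻¹) := by
  have hS : S1 * S1⁻¹ = 1 := Matrix.mul_nonsing_inv _ (isUnit_iff_ne_zero.2 hS1)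
  have hT : T1 * T1⁻¹ = 1 := Matrix.mul_nonsing_inv _ (isUnit_iff_ne_zero.2 hT1)
  have hM : (S1 * T1) * (T1⁻¹ * S1⁻¹) = 1 := by
    rw [Matrix.mul_assoc, ← Matrix.mul_assoc T1, hT, Matrix.one_mul, hS]
  have h1 : (T2 - T1) * S2 + ((T1 - 1) * (S2 - 1) - (S2 - 1) * (T1 - 1)) -
      (S1 - S2) * T1 = T2 * S2 - S1 * T1 := by noncomm_ring
  rw [h1, ← h, Matrix.sub_mul, Matrix.mul_assoc ct, hM, Matrix.mul_one]

/-- Lipschitz bound for matrix valued holomorphic functions. -/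
theorem lipM {B : Cn b → Matrix (Fin k) (Fin k) ℂ} {M : ℝ} (hr : 0 < r)
    (hB : ∀ i j, DifferentiableOn ℂ (fun z => B z i j) (ball z₀ r))
    (hM : ∀ z ∈ ball z₀ (r / 3), MB (B z - 1) M) :
    ∀ x ∈ ball z₀ (r / 4), ∀ y ∈ ball z₀ (r / 4),
      MB (B x - B y) (12 * k / r * M * ‖x - y‖) := by
  intro x hx y hy
  have key : ∀ i j, ‖(B x - B y) i j‖ ≤ 12 / r * M * ‖x - y‖ := by
    intro i j
    have hd : DifferentiableOn ℂ (fun z => (B z - 1) i j) (ball z₀ (r / 3)) := by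
      have h1 : (fun z => (B z - 1) i j) = fun z => B z i j - (1 : Matrix (Fin k) (Fin k) ℂ) i j := by
        funext z
        rfl
      rw [h1]
      exact ((hB i j).mono (ball_subset_ball (by linarith))).sub (differentiableOn_const _)
    have hp := cauchyB (ρ := r / 4) (ρ' := r / 3) (by linarith) hd
      (fun z hz => MB.entry (hM z hz) i j)
    have hp' : ∀ z ∈ ball z₀ (r / 4), ‖fderiv ℂ (fun z => (B z - 1) i j) z‖ ≤ 12 / r * M := by
      intro z hz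
      refine (hp z hz).trans (le_of_eq ?_)
      field_simp
      ring
    have h2 := lipB (ρ := r / 4) (ρ' := r / 3) (by linarith) hd hp' x hx y hy
    have h3 : (B x - 1) i j - (B y - 1) i j = (B x - B y) i j := by
      simp only [Matrix.sub_apply]
      ring
    rwa [h3] at h2
  have h4 := MB.of_entry key
  refine MB.mono h4 (le_of_eq ?_)
  ring

theorem commk (hLCONV : S_LCONV) (hLCMP : S_LCMP') (hSURJ : S_SURJ) : S_COMMK := by
  intro b k z₀ r A hP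
  have hL : LGrpK z₀ r A := hP.toLGrpK
  have hr : 0 < r := hL.pos
  obtain ⟨C1, η1, hC1, hη1, h1'⟩ := hLCMP hL.lgrp z₀ (r / 2) (by linarith)
    (ball_subset_ball (by linarith)) (3 * r / 4) (by linarith)
  have h1 : ∀ t ∈ A, ∀ s ≤ η1, Near z₀ (r / 2) t.g s → Near z₀ (3 * r / 4) t.g (C1 * s) :=
    fun t ht => h1' (bs t) ⟨t, ht, rfl⟩
  obtain ⟨η2, hη2, h2⟩ := lmulK hLCONV hSURJ hL (3 * r / 4) (by linarith) 1 one_pos
  obtain ⟨η2', hη2', h2'⟩ := lmulK hLCONV hSURJ hL (3 * r / 4) (by linarith) η2 hη2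
  obtain ⟨η3, hη3, h3⟩ := hSURJ z₀ (r / 2) (3 * r / 5) (by linarith) (r / 12) (by positivity)
  obtain ⟨η4, hη4, K4, hK40, h4⟩ := hP.lip
  obtain ⟨K5, hK50, h5⟩ := hP.grow
  obtain ⟨Ca, hCa, h6⟩ := hP.abd
  have hCa0 : 0 ≤ Ca := by linarith
  obtain ⟨Lc, hLc⟩ : ∃ Lc : ℝ, Lc = 12 * k / r * K4 * C1 := ⟨_, rfl⟩
  have hLc0 : 0 ≤ Lc := by rw [hLc]; positivity
  obtain ⟨K2, hK2⟩ : ∃ K2 : ℝ, K2 = (2 * Ca * Lc + 2 * K4 ^ 2) * Ca ^ 2 := ⟨_, rfl⟩
  have hK20 : 0 ≤ K2 := by rw [hK2]; positivity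
  -- the small number
  obtain ⟨η, hη, hηle⟩ : ∃ η : ℝ, 0 < η ∧ (η ≤ 1 ∧ η ≤ η1 ∧ η ≤ η2 ∧ η ≤ η2' ∧ η ≤ η4 ∧
      2 * C1 * η ≤ η2 ∧ 2 * C1 * η ≤ η2' ∧ 2 * C1 * η ≤ η3 ∧ C1 * η ≤ r / 24) := by
    have hC1' : 0 < 2 * C1 + 1 := by linarith
    obtain ⟨m, hm⟩ : ∃ m : ℝ, m = min (min (min 1 η1) (min η2 η2')) (min η4 (min η3 (r / 24))) :=
      ⟨_, rfl⟩
    have hm0 : 0 < m := by
      rw [hm]
      simp only [lt_min_iff]
      exact ⟨⟨⟨one_pos, hη1⟩, hη2, hη2'⟩, hη4, hη3, by positivity⟩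
    have m1 : m ≤ 1 := by simp [hm]
    have m2 : m ≤ η1 := by simp [hm]
    have m3 : m ≤ η2 := by simp [hm]
    have m4 : m ≤ η2' := by simp [hm]
    have m5 : m ≤ η4 := by simp [hm]
    have m7 : m ≤ η3 := by simp [hm]
    have m8 : m ≤ r / 24 := by simp [hm]
    refine ⟨m / (2 * C1 + 1), by positivity, ?_⟩
    have key : m / (2 * C1 + 1) ≤ m := by
      apply div_le_self hm0.le
      linarith
    have key2 : 2 * C1 * (m / (2 * C1 + 1)) ≤ m := by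
      rw [mul_div_assoc', div_le_iff₀ (by positivity)]
      nlinarith
    have key4 : C1 * (m / (2 * C1 + 1)) ≤ m := by
      have : 0 ≤ C1 * (m / (2 * C1 + 1)) := by positivity
      linarith
    exact ⟨key.trans m1, key.trans m2, key.trans m3, key.trans m4, key.trans m5,
      key2.trans m3, key2.trans m4, key2.trans m7, key4.trans m8⟩
  obtain ⟨e1, e2, e3, e4, e5, e7, e8, e9, e10⟩ := hηle
  obtain ⟨Q, hQ⟩ : ∃ Q : ℝ, Q = K4 + 4 * C1 / r + 2 * K2 * Ca := ⟨_, rfl⟩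
  have hQ0 : 0 ≤ Q := by rw [hQ]; positivity
  have hCr : 0 ≤ 24 * C1 ^ 2 / r := by positivity
  have hKQ : 0 ≤ K5 * Q := mul_nonneg hK50 hQ0
  refine ⟨η, hη, 24 * C1 ^ 2 / r + K2 + K5 * Q, by positivity, ?_⟩
  intro t ht s hs δ δ' ε ε' hδ hδ' hε0 hε1 hε'0 hε'1 hnt hns hbt hbs
  have hz₀ : z₀ ∈ ball z₀ (r / 2) := mem_ball_self (by positivity)
  have hδ0 : 0 ≤ δ := (norm_nonneg _).trans (hnt z₀ hz₀)
  have hδ'0 : 0 ≤ δ' := (norm_nonneg _).trans (hns z₀ hz₀)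
  have nearmono : ∀ {f : Cn b → Cn b} {ρ a c : ℝ}, Near z₀ ρ f a → a ≤ c → Near z₀ ρ f c :=
    fun hf hac z hz => (hf z hz).trans hac
  -- displacement on the big ball
  have hT : Near z₀ (3 * r / 4) t.g (C1 * δ) := h1 t ht δ (hδ.trans e2) hnt
  have hS : Near z₀ (3 * r / 4) s.g (C1 * δ') := h1 s hs δ' (hδ'.trans e2) hns
  have hTs : C1 * δ ≤ r / 24 := (mul_le_mul_of_nonneg_left hδ hC1).trans e10
  have hSs : C1 * δ' ≤ r / 24 := (mul_le_mul_of_nonneg_left hδ' hC1).trans e10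
  -- moving points
  have mv : ∀ {f : Cn b → Cn b} {a ρ : ℝ}, Near z₀ (3 * r / 4) f a → a ≤ r / 24 →
      ρ ≤ 3 * r / 4 → ∀ z ∈ ball z₀ ρ, f z ∈ ball z₀ (ρ + r / 24) := by
    intro f a ρ hf ha hρ z hz
    have hz' := hf z (ball_subset_ball hρ hz)
    rw [mem_ball, dist_eq_norm] at hz ⊢
    calc ‖f z - z₀‖ = ‖(f z - z) + (z - z₀)‖ := by congr 1; abel
      _ ≤ ‖f z - z‖ + ‖z - z₀‖ := norm_add_le _ _
      _ < ρ + r / 24 := by linarith
  -- products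
  obtain ⟨u1, hu1A, hu1⟩ := ((h2 s hs (nearmono hns (hδ'.trans e3))).1 t ht
    (nearmono hnt (hδ.trans e3))).2
  obtain ⟨u2, hu2A, hu2⟩ := ((h2 t ht (nearmono hnt (hδ.trans e3))).1 s hs
    (nearmono hns (hδ'.trans e3))).2
  have hsum : C1 * δ + C1 * δ' ≤ 2 * C1 * η := by
    have a1 := mul_le_mul_of_nonneg_left hδ hC1
    have a2 := mul_le_mul_of_nonneg_left hδ' hC1
    linarith
  have hu1near : Near z₀ (3 * r / 5) u1.g (C1 * δ + C1 * δ') := by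
    intro z hz
    have hz34 : z ∈ ball z₀ (3 * r / 4) := ball_subset_ball (by linarith) hz
    have h6 : u1.g z = s.g (t.g z) := (hu1 z hz34).1
    have h7 : t.g z ∈ ball z₀ (3 * r / 4) :=
      ball_subset_ball (by linarith) (mv hT hTs (by linarith) z hz)
    rw [h6]
    calc ‖s.g (t.g z) - z‖ = ‖(t.g z - z) + (s.g (t.g z) - t.g z)‖ := by congr 1; abel
      _ ≤ ‖t.g z - z‖ + ‖s.g (t.g z) - t.g z‖ := norm_add_le _ _
      _ ≤ C1 * δ + C1 * δ' := add_le_add (hT z hz34) (hS _ h7)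
  have hu2near : Near z₀ (3 * r / 5) u2.g (C1 * δ + C1 * δ') := by
    intro z hz
    have hz34 : z ∈ ball z₀ (3 * r / 4) := ball_subset_ball (by linarith) hz
    have h6 : u2.g z = t.g (s.g z) := (hu2 z hz34).1
    have h7 : s.g z ∈ ball z₀ (3 * r / 4) :=
      ball_subset_ball (by linarith) (mv hS hSs (by linarith) z hz)
    rw [h6]
    calc ‖t.g (s.g z) - z‖ = ‖(t.g (s.g z) - s.g z) + (s.g z - z)‖ := by congr 1; abel
      _ ≤ ‖t.g (s.g z) - s.g z‖ + ‖s.g z - z‖ := norm_add_le _ _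
      _ ≤ C1 * δ + C1 * δ' := add_le_add (hT _ h7) (hS z hz34)
  have hsub : ball z₀ (r / 2) ⊆ ball z₀ (3 * r / 5) := ball_subset_ball (by linarith)
  have hu1n : ∀ c, C1 * δ + C1 * δ' ≤ c → Near z₀ (r / 2) u1.g c :=
    fun c hc z hz => (hu1near z (hsub hz)).trans hc
  have hu2n : ∀ c, C1 * δ + C1 * δ' ≤ c → Near z₀ (r / 2) u2.g c :=
    fun c hc z hz => (hu2near z (hsub hz)).trans hc
  -- inverse of u1
  obtain ⟨v, hvA, hv1, hvnear⟩ := (h2' u1 hu1A (hu1n _ (hsum.trans e8))).2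
  -- the commutator
  obtain ⟨c, hcA, hc⟩ := ((h2 u2 hu2A (hu2n _ (hsum.trans e7))).1 v hvA
    (fun z hz => hvnear z (ball_subset_ball (by linarith) hz))).2
  -- the relations on the ball of radius 3 r / 5
  have hrel : ∀ z ∈ ball z₀ (3 * r / 5),
      c.g (s.g (t.g z)) = t.g (s.g z) ∧
      c.A (s.g (t.g z)) * (s.A (t.g z) * t.A z) = t.A (s.g z) * s.A z ∧
      c.A (s.g (t.g z)) *ᵥ (s.A (t.g z) *ᵥ t.β z + s.β (t.g z)) + c.β (s.g (t.g z)) =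
        t.A (s.g z) *ᵥ s.β z + t.β (s.g z) := by
    intro z hz
    have hz34 : z ∈ ball z₀ (3 * r / 4) := ball_subset_ball (by linarith) hz
    have hy34 : s.g (t.g z) ∈ ball z₀ (3 * r / 4) :=
      ball_subset_ball (by linarith) (mv hS hSs (by linarith) _ (mv hT hTs (by linarith) z hz))
    obtain ⟨a1, a2, a3⟩ := hu1 z hz34
    obtain ⟨b1, b2, b3⟩ := hu2 z hz34
    obtain ⟨v1, v2, v3⟩ := hv1 z hz34
    obtain ⟨c1, c2, c3⟩ := hc _ hy34
    simp only [TriK.comp, TriK.one, id] at a1 a2 a3 b1 b2 b3 v1 v2 v3 c1 c2 c3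
    rw [a1] at v1 v2 v3
    rw [a2] at v2
    rw [a3] at v3
    rw [v1] at c1 c2 c3
    refine ⟨c1.trans b1, ?_, ?_⟩
    · rw [c2, Matrix.mul_assoc, v2, Matrix.mul_one, b2]
    · rw [c2, c3, ← b3, ← Matrix.mulVec_mulVec, ← add_assoc, ← Matrix.mulVec_add, v3,
        Matrix.mulVec_zero, zero_add]
  -- every point of the smaller ball is of the form s.g (t.g x)
  have hpick : ∀ y ∈ ball z₀ (r / 2), ∃ x ∈ ball z₀ (3 * r / 5), s.g (t.g x) = y ∧
      ‖x - y‖ ≤ r / 12 := by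
    intro y hy
    obtain ⟨x, hx, hxy, hxn⟩ := (h3 u1.g ((holK_mem hL hu1A le_rfl).1.mono
      (ball_subset_ball (by linarith))) (fun z hz => (hu1near z hz).trans (hsum.trans e9))).1 y hy
    refine ⟨x, hx, ?_, hxn⟩
    have := (hu1 x (ball_subset_ball (by linarith) hx)).1
    rw [← hxy, this]
    rfl
  -- Lipschitz bounds for the displacements
  have lipD : ∀ w ∈ A, ∀ a : ℝ, Near z₀ (3 * r / 4) w.g a → ∀ x ∈ ball z₀ (2 * r / 3),
      ∀ y ∈ ball z₀ (2 * r / 3), ‖(w.g x - x) - (w.g y - y)‖ ≤ 12 * a / r * ‖x - y‖ := by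
    intro w hw a ha x hx y hy
    have hd : DifferentiableOn ℂ (fun z => w.g z - z) (ball z₀ (3 * r / 4)) :=
      ((holK_mem hL hw le_rfl).1.mono (ball_subset_ball (by linarith))).sub differentiableOn_id
    have hb := cauchyB (ρ := 2 * r / 3) (ρ' := 3 * r / 4) (by linarith) hd ha
    have hb' : ∀ z ∈ ball z₀ (2 * r / 3), ‖fderiv ℂ (fun z => w.g z - z) z‖ ≤ 12 * a / r := by
      intro z hz
      refine (hb z hz).trans (le_of_eq ?_)
      field_simp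
      ring
    exact lipB (ρ := 2 * r / 3) (ρ' := 3 * r / 4) (by linarith) hd hb' x hx y hy
  -- the linear parts
  have hta : ∀ z ∈ ball z₀ (r / 3), MB (t.A z - 1) (K4 * (ε + δ)) :=
    h4 t ht δ (hδ.trans e5) hnt ε hε0 hbt
  have hsa : ∀ z ∈ ball z₀ (r / 3), MB (s.A z - 1) (K4 * (ε' + δ')) :=
    h4 s hs δ' (hδ'.trans e5) hns ε' hε'0 hbs
  have htL := lipM hr (hL.holo t ht).2.1 hta
  have hsL := lipM hr (hL.holo s hs).2.1 hsa
  -- the functions β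
  have hb5 : ∀ w ∈ A, (∀ z ∈ ball z₀ r, ‖w.β z‖ ≤ K5 * (1 + ‖w.β z₀‖)) ∧
      ∀ x ∈ ball z₀ (r / 4), ∀ y ∈ ball z₀ (r / 4),
        ‖w.β x - w.β y‖ ≤ 4 * (K5 * (1 + ‖w.β z₀‖)) / r * ‖x - y‖ := by
    intro w hw
    have hl := h5 w hw
    refine ⟨hl, ?_⟩
    have hdb : DifferentiableOn ℂ w.β (ball z₀ (r / 2)) :=
      (hL.holo w hw).2.2.mono (ball_subset_ball (by linarith))
    have hp := cauchyB (ρ := r / 4) (ρ' := r / 2) (by linarith) hdb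
      (fun z hz => hl z (ball_subset_ball (by linarith) hz))
    have hp' : ∀ z ∈ ball z₀ (r / 4), ‖fderiv ℂ w.β z‖ ≤ 4 * (K5 * (1 + ‖w.β z₀‖)) / r := by
      intro z hz
      refine (hp z hz).trans (le_of_eq ?_)
      field_simp
      ring
    exact lipB (ρ := r / 4) (ρ' := r / 2) (by linarith) hdb hp'
  obtain ⟨htb, htbL⟩ := hb5 t ht
  obtain ⟨hsb, hsbL⟩ := hb5 s hs
  -- (1)
  have est1 : Near z₀ (r / 2) c.g (24 * C1 ^ 2 / r * δ * δ') := by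
    intro y hy
    obtain ⟨x, hx, hxy, -⟩ := hpick y hy
    obtain ⟨a1, -, -⟩ := hrel x hx
    rw [hxy] at a1
    have hx34 : x ∈ ball z₀ (3 * r / 4) := ball_subset_ball (by linarith) hx
    have hx23 : x ∈ ball z₀ (2 * r / 3) := ball_subset_ball (by linarith) hx
    have hsx : s.g x ∈ ball z₀ (2 * r / 3) :=
      ball_subset_ball (by linarith) (mv hS hSs (by linarith) x hx)
    have htx : t.g x ∈ ball z₀ (2 * r / 3) :=
      ball_subset_ball (by linarith) (mv hT hTs (by linarith) x hx)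
    have b1 := lipD t ht _ hT (s.g x) hsx x hx23
    have b2 := lipD s hs _ hS (t.g x) htx x hx23
    have b3 := hS x hx34
    have b4 := hT x hx34
    have key : c.g y - y = ((t.g (s.g x) - s.g x) - (t.g x - x)) -
        ((s.g (t.g x) - t.g x) - (s.g x - x)) := by
      rw [a1, hxy]; abel
    rw [key]
    calc _ ≤ ‖(t.g (s.g x) - s.g x) - (t.g x - x)‖ + ‖(s.g (t.g x) - t.g x) - (s.g x - x)‖ :=
          norm_sub_le _ _
      _ ≤ 12 * (C1 * δ) / r * (C1 * δ') + 12 * (C1 * δ') / r * (C1 * δ) := by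
          apply add_le_add
          · exact b1.trans (mul_le_mul_of_nonneg_left b3 (by positivity))
          · exact b2.trans (mul_le_mul_of_nonneg_left b4 (by positivity))
      _ = 24 * C1 ^ 2 / r * δ * δ' := by ring
  -- the point x with s.g (t.g x) = z₀
  obtain ⟨x, hx, hxy, hxn⟩ := hpick z₀ hz₀
  obtain ⟨-, a2, a3⟩ := hrel x hx
  rw [hxy] at a2 a3
  have hx34 : x ∈ ball z₀ (3 * r / 4) := ball_subset_ball (by linarith) hx
  have hxb : x ∈ ball z₀ (r / 8) := by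
    rw [mem_ball, dist_eq_norm]; linarith
  have hx4 : x ∈ ball z₀ (r / 4) := ball_subset_ball (by linarith) hxb
  have hsx4 : s.g x ∈ ball z₀ (r / 4) :=
    ball_subset_ball (by linarith) (mv hS hSs (by linarith) x hxb)
  have htx4 : t.g x ∈ ball z₀ (r / 4) :=
    ball_subset_ball (by linarith) (mv hT hTs (by linarith) x hxb)
  have h43 : ball z₀ (r / 4) ⊆ ball z₀ (r / 3) := ball_subset_ball (by linarith)
  have hr4 : ball z₀ (r / 4) ⊆ ball z₀ r := ball_subset_ball (by linarith)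
  have hSx := hS x hx34
  have hTx := hT x hx34
  obtain ⟨X, hX⟩ : ∃ X : ℝ, X = ε + δ := ⟨_, rfl⟩
  obtain ⟨Y, hY⟩ : ∃ Y : ℝ, Y = ε' + δ' := ⟨_, rfl⟩
  have hX0 : 0 ≤ X := by rw [hX]; linarith
  have hY0 : 0 ≤ Y := by rw [hY]; linarith
  have hδX : δ ≤ X := by rw [hX]; linarith
  have hδY : δ' ≤ Y := by rw [hY]; linarith
  have hX2 : X ≤ 2 := by rw [hX]; linarith
  have hY2 : Y ≤ 2 := by rw [hY]; linarith
  rw [← hX] at hta htL
  rw [← hY] at hsa hsL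
  -- (2)
  have d1 : MB (t.A (s.g x) - t.A x) (Lc * X * Y) := by
    refine MB.mono (htL _ hsx4 _ hx4) ?_
    calc 12 * (k : ℝ) / r * (K4 * X) * ‖s.g x - x‖ ≤ 12 * (k : ℝ) / r * (K4 * X) * (C1 * δ') := by
          gcongr
      _ ≤ 12 * (k : ℝ) / r * (K4 * X) * (C1 * Y) := by gcongr
      _ = Lc * X * Y := by rw [hLc]; ring
  have d2 : MB (s.A (t.g x) - s.A x) (Lc * X * Y) := by
    refine MB.mono (hsL _ htx4 _ hx4) ?_
    calc 12 * (k : ℝ) / r * (K4 * Y) * ‖t.g x - x‖ ≤ 12 * (k : ℝ) / r * (K4 * Y) * (C1 * δ) := by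
          gcongr
      _ ≤ 12 * (k : ℝ) / r * (K4 * Y) * (C1 * X) := by gcongr
      _ = Lc * X * Y := by rw [hLc]; ring
  have est2 : MB (c.A z₀ - 1) (K2 * (X * Y)) := by
    rw [comm_alg a2 (hL.det s hs _ (hr4 htx4)) (hL.det t ht _ (hr4 hx4))]
    have g1 : MB ((t.A (s.g x) - t.A x) * s.A x) (Lc * X * Y * Ca) :=
      MB.mul (by positivity) d1 (h6 s hs x (hr4 hx4)).1
    have g2 : MB ((t.A x - 1) * (s.A x - 1)) (K4 * X * (K4 * Y)) :=
      MB.mul (by positivity) (hta x (h43 hx4)) (hsa x (h43 hx4))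
    have g3 : MB ((s.A x - 1) * (t.A x - 1)) (K4 * Y * (K4 * X)) :=
      MB.mul (by positivity) (hsa x (h43 hx4)) (hta x (h43 hx4))
    have g4 : MB ((s.A (t.g x) - s.A x) * t.A x) (Lc * X * Y * Ca) :=
      MB.mul (by positivity) d2 (h6 t ht x (hr4 hx4)).1
    have g5 : MB ((t.A x)⁻¹ * (s.A (t.g x))⁻¹) (Ca * Ca) :=
      MB.mul hCa0 (h6 t ht x (hr4 hx4)).2 (h6 s hs _ (hr4 htx4)).2
    have g6 := MB.mul (by positivity) (MB.sub' (MB.add g1 (MB.sub' g2 g3)) g4) g5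
    refine MB.mono g6 (le_of_eq ?_)
    rw [hK2]
    ring
  -- (3)
  obtain ⟨Ms, hMs⟩ : ∃ Ms : ℝ, Ms = K5 * (1 + ‖s.β z₀‖) := ⟨_, rfl⟩
  obtain ⟨Mt, hMt⟩ : ∃ Mt : ℝ, Mt = K5 * (1 + ‖t.β z₀‖) := ⟨_, rfl⟩
  have hMs0 : 0 ≤ Ms := by rw [hMs]; positivity
  have hMt0 : 0 ≤ Mt := by rw [hMt]; positivity
  rw [← hMs] at hsb hsbL
  rw [← hMt] at htb htbL
  have f1 : ‖(t.A (s.g x) - 1) *ᵥ s.β x‖ ≤ K4 * X * Ms :=
    (hta _ (h43 hsx4) _).trans (mul_le_mul_of_nonneg_left (hsb _ (hr4 hx4)) (by positivity))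
  have f2 : ‖(1 - s.A (t.g x)) *ᵥ t.β x‖ ≤ K4 * Y * Mt := by
    have h7 : MB (1 - s.A (t.g x)) (K4 * Y) := by
      have h8 := MB.neg' (hsa _ (h43 htx4))
      rwa [neg_sub] at h8
    exact (h7 _).trans (mul_le_mul_of_nonneg_left (htb _ (hr4 hx4)) (by positivity))
  have f3 : ‖s.β x - s.β (t.g x)‖ ≤ 4 * C1 / r * X * Ms := by
    rw [norm_sub_rev]
    refine (hsbL _ htx4 _ hx4).trans ?_
    calc 4 * Ms / r * ‖t.g x - x‖ ≤ 4 * Ms / r * (C1 * δ) := by gcongr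
      _ ≤ 4 * Ms / r * (C1 * X) := by gcongr
      _ = _ := by ring
  have f4 : ‖t.β (s.g x) - t.β x‖ ≤ 4 * C1 / r * Y * Mt := by
    refine (htbL _ hsx4 _ hx4).trans ?_
    calc 4 * Mt / r * ‖s.g x - x‖ ≤ 4 * Mt / r * (C1 * δ') := by gcongr
      _ ≤ 4 * Mt / r * (C1 * Y) := by gcongr
      _ = _ := by ring
  have f5 : ‖s.A (t.g x) *ᵥ t.β x + s.β (t.g x)‖ ≤ Ca * Mt + Ms := by
    refine (norm_add_le _ _).trans (add_le_add ?_ (hsb _ (hr4 htx4)))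
    exact ((h6 s hs _ (hr4 htx4)).1 _).trans (mul_le_mul_of_nonneg_left (htb _ (hr4 hx4)) hCa0)
  have f6 : ‖(c.A z₀ - 1) *ᵥ (s.A (t.g x) *ᵥ t.β x + s.β (t.g x))‖ ≤
      K2 * (X * Y) * (Ca * Mt + Ms) :=
    (est2 _).trans (mul_le_mul_of_nonneg_left f5 (by positivity))
  have est3 : ‖c.β z₀‖ ≤ Q * (X * Ms + Y * Mt) := by
    have hid : c.β z₀ = (t.A (s.g x) - 1) *ᵥ s.β x + (s.β x - s.β (t.g x)) +
        (t.β (s.g x) - t.β x) + (1 - s.A (t.g x)) *ᵥ t.β x -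
        (c.A z₀ - 1) *ᵥ (s.A (t.g x) *ᵥ t.β x + s.β (t.g x)) := by
      have h7 : c.β z₀ = t.A (s.g x) *ᵥ s.β x + t.β (s.g x) -
          c.A z₀ *ᵥ (s.A (t.g x) *ᵥ t.β x + s.β (t.g x)) := by
        rw [← a3]; abel
      rw [h7]
      simp only [Matrix.sub_mulVec, Matrix.one_mulVec]
      abel
    have g0 : ‖c.β z₀‖ ≤ K4 * X * Ms + 4 * C1 / r * X * Ms + 4 * C1 / r * Y * Mt +
        K4 * Y * Mt + K2 * (X * Y) * (Ca * Mt + Ms) := by
      rw [hid]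
      refine (norm_sub_le _ _).trans (add_le_add ?_ f6)
      refine (norm_add_le _ _).trans (add_le_add ?_ f2)
      refine (norm_add_le _ _).trans (add_le_add ?_ f4)
      exact (norm_add_le _ _).trans (add_le_add f1 f3)
    refine g0.trans ?_
    have q1 : X * Y * Mt ≤ 2 * (Y * Mt) := by
      have := mul_le_mul_of_nonneg_right hX2 (mul_nonneg hY0 hMt0)
      linarith
    have q2 : X * Y * Ms ≤ 2 * (X * Ms) := by
      have := mul_le_mul_of_nonneg_right hY2 (mul_nonneg hX0 hMs0)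
      linarith
    have q3 : K2 * (X * Y) * (Ca * Mt + Ms) ≤ 2 * K2 * Ca * (X * Ms + Y * Mt) := by
      calc K2 * (X * Y) * (Ca * Mt + Ms) = K2 * (Ca * (X * Y * Mt) + X * Y * Ms) := by ring
        _ ≤ K2 * (Ca * (2 * (Y * Mt)) + 2 * (X * Ms)) := by gcongr
        _ ≤ K2 * (Ca * (2 * (Y * Mt)) + Ca * (2 * (X * Ms))) :=
            mul_le_mul_of_nonneg_left (add_le_add le_rfl
              (le_mul_of_one_le_left (by positivity) hCa)) hK20
        _ = _ := by ring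
    calc _ ≤ K4 * X * Ms + 4 * C1 / r * X * Ms + 4 * C1 / r * Y * Mt +
        K4 * Y * Mt + 2 * K2 * Ca * (X * Ms + Y * Mt) := by linarith
      _ = _ := by rw [hQ]; ring
  refine ⟨c, hcA, ⟨3 * r / 5, by positivity, ?_⟩, ?_, ?_, ?_⟩
  · intro z hz
    obtain ⟨a1, a2, a3⟩ := hrel z hz
    exact ⟨a1, a2, a3⟩
  · intro z hz
    refine (est1 z hz).trans ?_
    gcongr
    linarith
  · rw [← hX, ← hY]
    refine MB.mono est2 ?_
    gcongr
    linarith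
  · rw [← hX, ← hY]
    refine est3.trans ?_
    have hE : Q * (X * Ms + Y * Mt) =
      K5 * Q * (X * (1 + ‖s.β z₀‖) + Y * (1 + ‖t.β z₀‖)) := by
      rw [hMs, hMt]; ring
    rw [hE]
    gcongr
    linarith

end Pool.Agent.Helper49.RK
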